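import Pool.Agent.W_448i2_h61.TC

/-!
(6,4) at the window `j` (MP_448cb3_co, case B): algebra of the profiles with the number of deficits
`0, 0, 1, 2, 2, 3, 4` at the energies `0, ..., 6`.
-/

set_option autoImplicit false

namespace Pool.Agent.GaussPoset.Win.I2

set_option linter.unusedSectionVars false

open Finset

/-- number of deficits allowed at the energy `n`: `0, 0, 1, 2, 2, 3, 4` -/
def gd (n : ℕ) : ℕ :=
  if n < 2 then 0 else if n < 3 then 1 else if n < 5 then 2 else if n < 6 then 3 else 4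

/-- profile of a window series with the deficits `0, 0, 1, 2, 2, 3, 4` -/
def PG (b : ℕ) (V : PowerSeries A) : Prop :=
  ∀ n, n ≤ 6 → dd ^ b ∣ dd ^ gd n * PowerSeries.coeff n V

/-- the leading coefficient at the energy three -/
noncomputable def w3 (b : ℕ) (V : PowerSeries A) : ℤ :=
  PowerSeries.coeff b (dd ^ 2 * PowerSeries.coeff 3 V : A)

/-- the leading coefficient at the energy six -/
noncomputable def w6 (b : ℕ) (V : PowerSeries A) : ℤ :=
  PowerSeries.coeff b (dd ^ 4 * PowerSeries.coeff 6 V : A)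

/-- the leading coefficient at the energy `n` -/
noncomputable def cg (n b : ℕ) (V : PowerSeries A) : ℤ :=
  PowerSeries.coeff b (dd ^ gd n * PowerSeries.coeff n V : A)

lemma cg_zero (b : ℕ) (V : PowerSeries A) : cg 0 b V = eps b V := by
  unfold cg eps gd
  simp

lemma cg_three (b : ℕ) (V : PowerSeries A) : cg 3 b V = w3 b V := by
  unfold cg w3 gd
  simp

lemma cg_six (b : ℕ) (V : PowerSeries A) : cg 6 b V = w6 b V := by
  unfold cg w6 gd
  simp

lemma gd_add {i j : ℕ} (h : i + j ≤ 6) : gd i + gd j ≤ gd (i + j) := by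
  unfold gd
  split_ifs <;> omega

lemma PG_one : PG 0 (1 : PowerSeries A) := by
  intro n _
  rw [pow_zero]
  exact one_dvd _

/-- the profile is multiplicative -/
theorem PG.mul {b b' : ℕ} {V V' : PowerSeries A} (h : PG b V) (h' : PG b' V') :
    PG (b + b') (V * V') := by
  intro n hn
  rw [PowerSeries.coeff_mul, Finset.mul_sum]
  refine Finset.dvd_sum ?_
  rintro ⟨i, j⟩ hij
  rw [Finset.HasAntidiagonal.mem_antidiagonal] at hij
  simp only at hij ⊢
  subst hij
  have h1 := gd_add hn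
  have h2 : dd ^ gd (i + j) * (PowerSeries.coeff i V * PowerSeries.coeff j V') =
      dd ^ (gd (i + j) - (gd i + gd j)) *
        ((dd ^ gd i * PowerSeries.coeff i V) * (dd ^ gd j * PowerSeries.coeff j V')) := by
    have h3 : (dd : A) ^ gd (i + j) = dd ^ (gd (i + j) - (gd i + gd j)) * (dd ^ gd i * dd ^ gd j) := by
      rw [← pow_add, ← pow_add]
      congr 1
      omega
    rw [h3]
    ring
  rw [h2, pow_add]
  exact dvd_mul_of_dvd_right (mul_dvd_mul (h i (by omega)) (h' j (by omega))) _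

theorem cg_mul {b b' : ℕ} {V V' : PowerSeries A} (h : PG b V) (h' : PG b' V') {n : ℕ}
    (hn : n ≤ 6) : cg n (b + b') (V * V') =
      ∑ p ∈ Finset.HasAntidiagonal.antidiagonal n,
        if gd p.1 + gd p.2 = gd n then cg p.1 b V * cg p.2 b' V' else 0 := by
  unfold cg
  rw [PowerSeries.coeff_mul n V V', Finset.mul_sum, map_sum]
  refine Finset.sum_congr rfl ?_
  rintro ⟨i, j⟩ hij
  rw [Finset.HasAntidiagonal.mem_antidiagonal] at hij
  simp only at hij ⊢
  subst hij
  have h1 := gd_add hn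
  have h2 : dd ^ gd (i + j) * (PowerSeries.coeff i V * PowerSeries.coeff j V') =
      dd ^ (gd (i + j) - (gd i + gd j)) *
        ((dd ^ gd i * PowerSeries.coeff i V) * (dd ^ gd j * PowerSeries.coeff j V')) := by
    have h3 : (dd : A) ^ gd (i + j) = dd ^ (gd (i + j) - (gd i + gd j)) * (dd ^ gd i * dd ^ gd j) := by
      rw [← pow_add, ← pow_add]
      congr 1
      omega
    rw [h3]
    ring
  have h4 := h i (by omega)
  have h5 := h' j (by omega)
  rw [h2]
  by_cases h6 : gd i + gd j = gd (i + j)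
  · rw [if_pos h6, h6, Nat.sub_self, pow_zero, one_mul]
    exact coeff_mul_of_dvd h4 h5
  · rw [if_neg h6]
    apply coeff_eq_zero_of_dvd
    rw [pow_succ', pow_add]
    refine mul_dvd_mul ?_ (mul_dvd_mul h4 h5)
    exact dvd_pow_self _ (by omega)

lemma anti_cg (f : ℕ × ℕ → ℤ) :
    (∑ p ∈ Finset.HasAntidiagonal.antidiagonal 6, f p =
      f (0, 6) + f (1, 5) + f (2, 4) + f (3, 3) + f (4, 2) + f (5, 1) + f (6, 0)) ∧
    (∑ p ∈ Finset.HasAntidiagonal.antidiagonal 3, f p =
      f (0, 3) + f (1, 2) + f (2, 1) + f (3, 0)) ∧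
    (∑ p ∈ Finset.HasAntidiagonal.antidiagonal 0, f p = f (0, 0)) := by
  simp only [Finset.Nat.sum_antidiagonal_eq_sum_range_succ_mk, Finset.sum_range_succ,
    Finset.sum_range_zero]
  norm_num

section mul

variable {b b' : ℕ} {V V' : PowerSeries A} (h : PG b V) (h' : PG b' V')
include h h'

lemma eps_mul_PG : eps (b + b') (V * V') = eps b V * eps b' V' := by
  rw [← cg_zero, ← cg_zero, ← cg_zero, cg_mul h h' (by omega), (anti_cg _).2.2]
  simp [gd]

lemma w3_mul_PG : w3 (b + b') (V * V') = eps b V * w3 b' V' + w3 b V * eps b' V' := by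
  rw [← cg_zero, ← cg_zero, ← cg_three, ← cg_three, ← cg_three, cg_mul h h' (by omega),
    (anti_cg _).2.1]
  simp [gd]

lemma w6_mul_PG : w6 (b + b') (V * V') =
    eps b V * w6 b' V' + w3 b V * w3 b' V' + w6 b V * eps b' V' := by
  rw [← cg_zero, ← cg_zero, ← cg_three, ← cg_three, ← cg_six, ← cg_six, ← cg_six,
    cg_mul h h' (by omega), (anti_cg _).1]
  simp [gd]

end mul

/-- the additive quantity at the energy six -/
noncomputable def QG (b : ℕ) (V : PowerSeries A) : ℤ := w3 b V ^ 2 - 2 * w6 b V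

/-- the product over the components -/
theorem prod_PG {ι : Type*} (s : Finset ι) (b : ι → ℕ) (V : ι → PowerSeries A)
    (h : ∀ c ∈ s, PG (b c) (V c)) (h1 : ∀ c ∈ s, eps (b c) (V c) = 1) :
    PG (∑ c ∈ s, b c) (∏ c ∈ s, V c) ∧ eps (∑ c ∈ s, b c) (∏ c ∈ s, V c) = 1 ∧
    w3 (∑ c ∈ s, b c) (∏ c ∈ s, V c) = ∑ c ∈ s, w3 (b c) (V c) ∧
    QG (∑ c ∈ s, b c) (∏ c ∈ s, V c) = ∑ c ∈ s, QG (b c) (V c) := by
  classical
  induction s using Finset.induction_on with
  | empty =>
    simp only [Finset.sum_empty, Finset.prod_empty]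
    refine ⟨PG_one, ?_, ?_, ?_⟩
    · simp [eps]
    · simp [w3, PowerSeries.coeff_one]
    · simp [QG, w3, w6, PowerSeries.coeff_one]
  | insert a s ha ih =>
    obtain ⟨i1, i2, i3, i4⟩ := ih (fun c hc => h c (Finset.mem_insert_of_mem hc))
      (fun c hc => h1 c (Finset.mem_insert_of_mem hc))
    have ha1 := h a (Finset.mem_insert_self a s)
    have ha2 := h1 a (Finset.mem_insert_self a s)
    simp only [Finset.sum_insert ha, Finset.prod_insert ha]
    rw [← i3, ← i4]
    refine ⟨ha1.mul i1, ?_, ?_, ?_⟩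
    · rw [eps_mul_PG ha1 i1, ha2, i2, one_mul]
    · rw [w3_mul_PG ha1 i1, ha2, i2]; ring
    · unfold QG
      rw [w3_mul_PG ha1 i1, w6_mul_PG ha1 i1, ha2, i2]
      ring

/-- the wanted form: `∑ (w3 ^ 2 - 2 w6) = w3 (∏) ^ 2 - 2 w6 (∏)` -/
theorem sum_sq_PG {ι : Type*} (s : Finset ι) (b : ι → ℕ) (V : ι → PowerSeries A)
    (h : ∀ c ∈ s, PG (b c) (V c)) (h1 : ∀ c ∈ s, eps (b c) (V c) = 1) :
    ∑ c ∈ s, (w3 (b c) (V c) ^ 2 - 2 * w6 (b c) (V c)) =
      w3 (∑ c ∈ s, b c) (∏ c ∈ s, V c) ^ 2 - 2 * w6 (∑ c ∈ s, b c) (∏ c ∈ s, V c) :=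
  ((prod_PG s b V h h1).2.2.2).symm

end Pool.Agent.GaussPoset.Win.I2
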